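import Pool.Agent.Work.MP_d7201b_al.Engel

/-!
# The normal closure of `X` has class exactly five
-/

namespace Pool.Agent.Work.MP_d7201b_al

namespace Gp

open Subgroup

open scoped commutatorElement in
theorem commutator_le_of {H K L : Subgroup Gp}
    (h : ∀ g ∈ H, ∀ h ∈ K, ∀ c, c * (h * g) = g * h → c ∈ L) : ⁅H, K⁆ ≤ L := by
  rw [commutator_le]
  intro g hg k hk
  refine h g hg k hk _ ?_
  rw [commutatorElement_def]; group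

/-- The terms of a central series of `H1`. -/
def H1 : Subgroup Gp where
  carrier := {g | g.x.1 = 0 ∧ g.y.1 = 0}
  one_mem' := by simp
  mul_mem' := by
    rintro g h ⟨hg1, hg2⟩ ⟨hh1, hh2⟩
    simp [E, hg1, hg2, hh1, hh2]
  inv_mem' := by
    rintro g ⟨hg1, hg2⟩
    simp [E, hg1, hg2]

theorem mem_H1 {g : Gp} : g ∈ H1 ↔ g.x.1 = 0 ∧ g.y.1 = 0 := Iff.rfl

def H2 : Subgroup Gp where
  carrier := {g | g.a = 0 ∧ g.x.1 = 0 ∧ g.x.2.1 = 0 ∧ g.y.1 = 0 ∧ g.y.2.1 = 0}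
  one_mem' := by simp
  mul_mem' := by
    rintro g h ⟨hg0, hg1, hg2, hg3, hg4⟩ ⟨hh0, hh1, hh2, hh3, hh4⟩
    simp [*]
  inv_mem' := by
    rintro g ⟨hg0, hg1, hg2, hg3, hg4⟩
    simp [*]

theorem mem_H2 {g : Gp} :
    g ∈ H2 ↔ g.a = 0 ∧ g.x.1 = 0 ∧ g.x.2.1 = 0 ∧ g.y.1 = 0 ∧ g.y.2.1 = 0 := Iff.rfl

def H3 : Subgroup Gp where
  carrier := {g | g.a = 0 ∧ (g.x.1 = 0 ∧ g.x.2.1 = 0 ∧ g.x.2.2.1 = 0) ∧
    (g.y.1 = 0 ∧ g.y.2.1 = 0 ∧ g.y.2.2.1 = 0) ∧ g.w.2.2 = 15 * g.w.2.1}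
  one_mem' := by simp
  mul_mem' := by
    rintro g h ⟨hg0, ⟨hg1, hg2, hg3⟩, ⟨hg4, hg5, hg6⟩, hg7⟩
      ⟨hh0, ⟨hh1, hh2, hh3⟩, ⟨hh4, hh5, hh6⟩, hh7⟩
    simp [B, *]
    ring
  inv_mem' := by
    rintro g ⟨hg0, ⟨hg1, hg2, hg3⟩, ⟨hg4, hg5, hg6⟩, hg7⟩
    simp [B, *]

theorem mem_H3 {g : Gp} :
    g ∈ H3 ↔ g.a = 0 ∧ (g.x.1 = 0 ∧ g.x.2.1 = 0 ∧ g.x.2.2.1 = 0) ∧
    (g.y.1 = 0 ∧ g.y.2.1 = 0 ∧ g.y.2.2.1 = 0) ∧ g.w.2.2 = 15 * g.w.2.1 := Iff.rfl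

def H4 : Subgroup Gp where
  carrier := {g | g.a = 0 ∧ g.x = 0 ∧ g.y = 0 ∧ g.w.2.2 = 0 ∧ g.w.2.1 = 15 * g.w.1}
  one_mem' := by simp
  mul_mem' := by
    rintro g h ⟨hg0, hg1, hg2, hg3, hg4⟩ ⟨hh0, hh1, hh2, hh3, hh4⟩
    simp [*]
    ring
  inv_mem' := by
    rintro g ⟨hg0, hg1, hg2, hg3, hg4⟩
    simp [*]

theorem mem_H4 {g : Gp} :
    g ∈ H4 ↔ g.a = 0 ∧ g.x = 0 ∧ g.y = 0 ∧ g.w.2.2 = 0 ∧ g.w.2.1 = 15 * g.w.1 := Iff.rfl

def H5 : Subgroup Gp where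
  carrier := {g | g.a = 0 ∧ g.x = 0 ∧ g.y = 0 ∧ g.w.2.2 = 0 ∧ g.w.2.1 = 0 ∧ 5 * g.w.1 = 0}
  one_mem' := by simp
  mul_mem' := by
    rintro g h ⟨hg0, hg1, hg2, hg3, hg4, hg5⟩ ⟨hh0, hh1, hh2, hh3, hh4, hh5⟩
    simp [*, mul_add]
  inv_mem' := by
    rintro g ⟨hg0, hg1, hg2, hg3, hg4, hg5⟩
    simp [*]

theorem mem_H5 {g : Gp} :
    g ∈ H5 ↔ g.a = 0 ∧ g.x = 0 ∧ g.y = 0 ∧ g.w.2.2 = 0 ∧ g.w.2.1 = 0 ∧ 5 * g.w.1 = 0 := Iff.rfl

theorem H1_normal : H1.Normal := by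
  refine ⟨fun n hn g => ?_⟩
  obtain ⟨h1, h2⟩ := hn
  simp [mem_H1, E, h1, h2]

theorem closure_le : normalClosure {X} ≤ H1 := by
  have := H1_normal
  rw [← Subgroup.normalClosure_subset_iff]
  rintro _ rfl
  simp [H1, X]

/-- The equations for the components of the commutator `c` of `g` and `h`. -/
theorem comm_eqs {g h c : Gp} (e : c * (h * g) = g * h) :
    c.a = 0 ∧
    E (h.a + g.a) c.x + (E g.a h.x + g.x) = E h.a g.x + h.x ∧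
    E (h.a + g.a) c.y + (E g.a h.y + g.y) = E h.a g.y + h.y ∧
    F (h.a + g.a) c.w + (F g.a h.w + g.w + B (E g.a h.x) g.y)
      + B (E (h.a + g.a) c.x) (E g.a h.y + g.y) = F h.a g.w + h.w + B (E h.a g.x) h.y := by
  have ea := congrArg Gp.a e
  have ex := congrArg Gp.x e
  have ey := congrArg Gp.y e
  have ew := congrArg Gp.w e
  simp only [mul_a, mul_x, mul_y, mul_w] at ea ex ey ew
  exact ⟨by linear_combination ea, ex, ey, ew⟩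

theorem comm_H2 : ⁅H1, H1⁆ ≤ H2 := by
  refine commutator_le_of ?_
  rintro ⟨a, ⟨x0, x1, x2, x3⟩, ⟨y0, y1, y2, y3⟩, ⟨w0, w1, w2⟩⟩ hg
    ⟨a', ⟨x0', x1', x2', x3'⟩, ⟨y0', y1', y2', y3'⟩, ⟨w0', w1', w2'⟩⟩ hh
    ⟨b, ⟨u0, u1, u2, u3⟩, ⟨v0, v1, v2, v3⟩, ⟨t0, t1, t2⟩⟩ e
  obtain ⟨ea, ex, ey, -⟩ := comm_eqs e
  simp only [mem_H1, mem_H2] at *
  obtain ⟨rfl, rfl⟩ := hg
  obtain ⟨rfl, rfl⟩ := hh
  simp only [E, Prod.mk_add_mk, Prod.mk.injEq] at ex ey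
  obtain ⟨ex0, ex1, -, -⟩ := ex
  obtain ⟨ey0, ey1, -, -⟩ := ey
  have hu0 : u0 = 0 := by linear_combination ex0
  have hv0 : v0 = 0 := by linear_combination ey0
  subst hu0 hv0
  exact ⟨ea, rfl, by linear_combination ex1, rfl, by linear_combination ey1⟩

theorem comm_H3 : ⁅H2, H1⁆ ≤ H3 := by
  refine commutator_le_of ?_
  rintro ⟨a, ⟨x0, x1, x2, x3⟩, ⟨y0, y1, y2, y3⟩, ⟨w0, w1, w2⟩⟩ hg
    ⟨a', ⟨x0', x1', x2', x3'⟩, ⟨y0', y1', y2', y3'⟩, ⟨w0', w1', w2'⟩⟩ hh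
    ⟨b, ⟨u0, u1, u2, u3⟩, ⟨v0, v1, v2, v3⟩, ⟨t0, t1, t2⟩⟩ e
  obtain ⟨ea, ex, ey, ew⟩ := comm_eqs e
  simp only [mem_H1, mem_H2, mem_H3] at *
  obtain ⟨rfl, rfl, rfl, rfl, rfl⟩ := hg
  obtain ⟨rfl, rfl⟩ := hh
  simp only [E, F, B, Prod.mk_add_mk, Prod.mk.injEq] at ex ey ew
  obtain ⟨ex0, ex1, ex2, ex3⟩ := ex
  obtain ⟨ey0, ey1, ey2, ey3⟩ := ey
  obtain ⟨-, ew1, ew2⟩ := ew
  have hu0 : u0 = 0 := by linear_combination ex0
  have hv0 : v0 = 0 := by linear_combination ey0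
  subst hu0 hv0
  have hu1 : u1 = 0 := by linear_combination ex1
  have hv1 : v1 = 0 := by linear_combination ey1
  subst hu1 hv1
  have hu2 : u2 = 0 := by linear_combination ex2
  have hv2 : v2 = 0 := by linear_combination ey2
  subst hu2 hv2
  refine ⟨ea, ⟨rfl, rfl, rfl⟩, ⟨rfl, rfl, rfl⟩, ?_⟩
  linear_combination ew2 - 15 * ew1 +
    (12*t2*a'^2 - 12*w2*a'^2 + 18*a'*y1'*x2 + 18*y2'*x2 + y1'*x2 + 6*y1'*x3 - 6*y1'*u3
      - 6*y3*x1' - x1'*y2 - 18*y2*x2') * h25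

theorem comm_H4 : ⁅H3, H1⁆ ≤ H4 := by
  refine commutator_le_of ?_
  rintro ⟨a, ⟨x0, x1, x2, x3⟩, ⟨y0, y1, y2, y3⟩, ⟨w0, w1, w2⟩⟩ hg
    ⟨a', ⟨x0', x1', x2', x3'⟩, ⟨y0', y1', y2', y3'⟩, ⟨w0', w1', w2'⟩⟩ hh
    ⟨b, ⟨u0, u1, u2, u3⟩, ⟨v0, v1, v2, v3⟩, ⟨t0, t1, t2⟩⟩ e
  obtain ⟨ea, ex, ey, ew⟩ := comm_eqs e
  simp only [mem_H1, mem_H3, mem_H4] at *
  obtain ⟨rfl, ⟨rfl, rfl, rfl⟩, ⟨rfl, rfl, rfl⟩, rfl⟩ := hg
  obtain ⟨rfl, rfl⟩ := hh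
  simp only [E, F, B, Prod.mk_add_mk, Prod.mk.injEq] at ex ey ew
  obtain ⟨ex0, ex1, ex2, ex3⟩ := ex
  obtain ⟨ey0, ey1, ey2, ey3⟩ := ey
  obtain ⟨ew0, ew1, ew2⟩ := ew
  have hu0 : u0 = 0 := by linear_combination ex0
  have hv0 : v0 = 0 := by linear_combination ey0
  subst hu0 hv0
  have hu1 : u1 = 0 := by linear_combination ex1
  have hv1 : v1 = 0 := by linear_combination ey1
  subst hu1 hv1
  have hu2 : u2 = 0 := by linear_combination ex2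
  have hv2 : v2 = 0 := by linear_combination ey2
  subst hu2 hv2
  have hu3 : u3 = 0 := by linear_combination ex3
  have hv3 : v3 = 0 := by linear_combination ey3
  subst hu3 hv3
  have ht2 : t2 = 0 := by
    linear_combination (1 - 15 * a') * ew2 +
      (9*t2*a'^2 + 9*a'*w1 - 135*a'^2*w1) * h25
  subst ht2
  refine ⟨ea, rfl, rfl, rfl, ?_⟩
  linear_combination ew1 - 15 * ew0 + 15 * a' * ew1 +
    (-96*w1*a'^2 + 45*w1*a'^3 - 6*a'*y1'*x3 + 6*a'*x1'*y3 + 3*y2'*x3 - y1'*x3 + x1'*y3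
      - 3*y3*x2') * h25

theorem comm_H5 : ⁅H4, H1⁆ ≤ H5 := by
  refine commutator_le_of ?_
  rintro ⟨a, x, y, ⟨w0, w1, w2⟩⟩ hg
    ⟨a', ⟨x0', x1', x2', x3'⟩, ⟨y0', y1', y2', y3'⟩, ⟨w0', w1', w2'⟩⟩ hh
    ⟨b, ⟨u0, u1, u2, u3⟩, ⟨v0, v1, v2, v3⟩, ⟨t0, t1, t2⟩⟩ e
  obtain ⟨ea, ex, ey, ew⟩ := comm_eqs e
  simp only [mem_H1, mem_H4, mem_H5] at *
  obtain ⟨rfl, rfl, rfl, rfl, rfl⟩ := hg
  obtain ⟨rfl, rfl⟩ := hh
  simp only [E_map_zero, B_zero_left, B_zero_right, E_zero, F_zero, add_zero, zero_add] at ex ey ew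
  simp only [E, Prod.mk_add_mk, Prod.mk.injEq] at ex ey
  obtain ⟨ex0, ex1, ex2, ex3⟩ := ex
  obtain ⟨ey0, ey1, ey2, ey3⟩ := ey
  have hu0 : u0 = 0 := by linear_combination ex0
  have hv0 : v0 = 0 := by linear_combination ey0
  subst hu0 hv0
  have hu1 : u1 = 0 := by linear_combination ex1
  have hv1 : v1 = 0 := by linear_combination ey1
  subst hu1 hv1
  have hu2 : u2 = 0 := by linear_combination ex2
  have hv2 : v2 = 0 := by linear_combination ey2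
  subst hu2 hv2
  have hu3 : u3 = 0 := by linear_combination ex3
  have hv3 : v3 = 0 := by linear_combination ey3
  subst hu3 hv3
  simp only [E, F, B, Prod.mk_add_mk, Prod.mk.injEq] at ew
  obtain ⟨ew0, ew1, ew2⟩ := ew
  have ht2 : t2 = 0 := by
    linear_combination (1 - 15 * a') * ew2 + (9*t2*a'^2) * h25
  subst ht2
  have ht1 : t1 = 0 := by linear_combination ew1
  subst ht1
  refine ⟨ea, rfl, rfl, rfl, rfl, ?_⟩
  linear_combination 5 * ew0 + (3 * a' * w0) * h25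

theorem comm_bot : ⁅H5, H1⁆ ≤ ⊥ := by
  refine commutator_le_of ?_
  rintro ⟨a, x, y, ⟨w0, w1, w2⟩⟩ hg h - c e
  simp only [mem_H5] at hg
  obtain ⟨rfl, rfl, rfl, rfl, rfl, -⟩ := hg
  rw [mem_bot]
  have e2 : h * (⟨0, 0, 0, (w0, 0, 0)⟩ : Gp) = ⟨0, 0, 0, (w0, 0, 0)⟩ * h := by
    refine Gp.ext ?_ ?_ ?_ ?_
    · simp
    · simp
    · simp
    · simp [F, add_comm]
  rw [← e2] at e
  exact mul_eq_right.mp e

theorem lcs_five : (normalClosure {X}).lowerCentralSeries 5 = ⊥ := by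
  rw [eq_bot_iff]
  refine le_trans (lowerCentralSeries_mono 5 closure_le) ?_
  have l1 : H1.lowerCentralSeries 1 ≤ H2 := comm_H2
  have l2 : H1.lowerCentralSeries 2 ≤ H3 := (commutator_mono l1 le_rfl).trans comm_H3
  have l3 : H1.lowerCentralSeries 3 ≤ H4 := (commutator_mono l2 le_rfl).trans comm_H4
  have l4 : H1.lowerCentralSeries 4 ≤ H5 := (commutator_mono l3 le_rfl).trans comm_H5
  exact (commutator_mono l4 le_rfl).trans comm_bot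

theorem comm_mem {H K : Subgroup Gp} {a b : Gp} (ha : a ∈ H) (hb : b ∈ K) : comm a b ∈ ⁅H, K⁆ := by
  have := commutator_mem_commutator (inv_mem ha) (inv_mem hb)
  simpa [comm, commutatorElement_def] using this

theorem comm_mem_left {H : Subgroup Gp} [hH : H.Normal] {a b : Gp} (hb : b ∈ H) : comm a b ∈ H := by
  have := hH.conj_mem b⁻¹ (inv_mem hb) a⁻¹
  have h2 : comm a b = (a⁻¹ * b⁻¹ * a⁻¹⁻¹) * b := by simp [comm]
  rw [h2]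
  exact mul_mem this hb

/-- Generators used for the lower bound. -/
def r1 : Gp := ⟨0, (1, 0, 0, 0), 0, 0⟩
def r2 : Gp := ⟨0, 0, (1, 0, 0, 0), 0⟩

theorem e5_eq : comm (comm (comm (comm (comm r2 X) X) X) (comm r1 X)) X =
    ⟨0, 0, 0, (10, 0, 0)⟩ := by
  refine Gp.ext ?_ ?_ ?_ ?_ <;> decide +kernel

theorem lcs_four : (normalClosure {X}).lowerCentralSeries 4 ≠ ⊥ := by
  intro h
  have hX : X ∈ normalClosure {X} := subset_normalClosure (Set.mem_singleton X)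
  have m1 : comm r2 X ∈ normalClosure {X} := comm_mem_left hX
  have m2 := comm_mem m1 hX
  have m3 := comm_mem m2 hX
  have d1 : comm r1 X ∈ normalClosure {X} := comm_mem_left hX
  have m4 := comm_mem m3 d1
  have m5 := comm_mem m4 hX
  rw [e5_eq] at m5
  have m6 : (⟨0, 0, 0, (10, 0, 0)⟩ : Gp) ∈ (normalClosure {X}).lowerCentralSeries 4 := m5
  rw [h, mem_bot] at m6
  have := congrArg (fun g : Gp => g.w.1) m6
  revert this
  decide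

/-- `Gp` as a product of types. -/
def toProd : Gp ≃ R × V × V × W where
  toFun g := (g.a, g.x, g.y, g.w)
  invFun p := ⟨p.1, p.2.1, p.2.2.1, p.2.2.2⟩
  left_inv _ := rfl
  right_inv _ := rfl

instance : Finite Gp := Finite.of_equiv _ toProd.symm

theorem card_eq : Nat.card Gp = 5 ^ 24 := by
  rw [Nat.card_congr toProd]
  simp only [R, V, W, Nat.card_prod, Nat.card_zmod]
  norm_num

theorem isPGroup : IsPGroup 5 Gp := IsPGroup.of_card card_eq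

theorem main : ∃ (G : Type) (_ : Group G) (x : G), Finite G ∧ IsPGroup 5 G ∧ IsRightEngel 4 x ∧
    Group.IsNilpotent (Subgroup.normalClosure {x}) ∧
    Group.nilpotencyClass (Subgroup.normalClosure {x}) = 5 := by
  have hnil : Group.IsNilpotent (normalClosure ({X} : Set Gp)) :=
    (isNilpotent_iff_lowerCentralSeries _).2 ⟨5, lcs_five⟩
  refine ⟨Gp, inferInstance, X, inferInstance, isPGroup, isRightEngel_X, hnil,
    le_antisymm ?_ ?_⟩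
  · rw [← Subgroup.lowerCentralSeries_eq_bot_iff_nilpotencyClass_le, ← map_subtype_inj,
      Subgroup.map_bot, top_subtype_lowerCentralSeries]
    exact lcs_five
  · by_contra hlt
    have hle : Group.nilpotencyClass (normalClosure ({X} : Set Gp)) ≤ 4 := by omega
    rw [← Subgroup.lowerCentralSeries_eq_bot_iff_nilpotencyClass_le, ← map_subtype_inj,
      Subgroup.map_bot, top_subtype_lowerCentralSeries] at hle
    exact lcs_four hle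

theorem main2 : 5 ∈ classes4 := by
  obtain ⟨G, i, x, -, -, h1, h2, h3⟩ := main
  exact ⟨G, i, x, h1, h2, h3⟩

theorem main3 : ¬ IsGreatest classes4 4 := fun h => by
  have := h.2 main2
  omega

end Gp

end Pool.Agent.Work.MP_d7201b_al
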