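import Mathlib

/-!
# Right Engel elements and the set `𝔠₄` of the problem

The commutator convention is the one of the problem, `[a, b] = a⁻¹ b⁻¹ a b`, with left-normed
iterated commutators `[a, ₖ₊₁ g] = [[a, ₖ g], g]`.
-/

namespace Pool.Agent.Work.MP_d7201b_al

/-- The commutator `[a, b] = a⁻¹ b⁻¹ a b`. -/
def comm {G : Type*} [Group G] (a b : G) : G := a⁻¹ * b⁻¹ * a * b

/-- The iterated commutator `[x, ₖ g]`: `[x, ₀ g] = x` and `[x, ₖ₊₁ g] = [[x, ₖ g], g]`. -/
def engel {G : Type*} [Group G] (x g : G) : ℕ → G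
  | 0 => x
  | k + 1 => comm (engel x g k) g

/-- `x` is a right `n`-Engel element of `G`: `[x, ₙ g] = 1` for every `g` in `G`. -/
def IsRightEngel {G : Type*} [Group G] (n : ℕ) (x : G) : Prop := ∀ g : G, engel x g n = 1

/-- The set `𝔠₄` of the nilpotency classes of the normal closures `⟨x⟩^G`, where `x` is a right
4-Engel element of a group `G` and `⟨x⟩^G` is nilpotent. -/
def classes4 : Set ℕ :=
  {c | ∃ (G : Type) (_ : Group G) (x : G), IsRightEngel 4 x ∧
    Group.IsNilpotent (Subgroup.normalClosure {x}) ∧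
    Group.nilpotencyClass (Subgroup.normalClosure {x}) = c}

end Pool.Agent.Work.MP_d7201b_al
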