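import Pool.Agent.Work.MP_d7201b_al.Grp

/-!
# The element `X` is a right 4-Engel element

Explicit values of the iterated commutators `[X, g]`, `[X, g, g]`, `[X, g, g, g]`.
-/

namespace Pool.Agent.Work.MP_d7201b_al

namespace Gp

/-- The element `X`. -/
def X : Gp := ⟨1, 0, 0, 0⟩

theorem X_mul (g : Gp) : X * g = ⟨1 + g.a, g.x, g.y, g.w⟩ := by
  refine Gp.ext ?_ ?_ ?_ ?_ <;> simp [X]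

theorem mul_X (g : Gp) : g * X = ⟨g.a + 1, E 1 g.x, E 1 g.y, F 1 g.w⟩ := by
  refine Gp.ext ?_ ?_ ?_ ?_ <;> simp [X]

theorem comm_eq_of {g h c : Gp} (e : g * h = h * g * c) : comm g h = c := by
  have : comm g h = (h * g)⁻¹ * (g * h) := by unfold comm; group
  rw [this, e]; group

/-- The commutator `[X, 1 g]`. -/
def c1 (a x0 x1 x2 x3 y0 y1 y2 y3 w0 w1 w2 : R) : Gp :=
  ⟨0, (0, -x0, -x0 - 2*x1, -x0 - 3*x1 - 3*x2),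
    (0, -y0, -y0 - 2*y1, -y0 - 3*y1 - 3*y2),
    (-w1 - 3*w2 - 10*x0*y0 - x0*y1 - 12*x0*y2 + 10*x1*y1 - 2*x1*y2 + 6*x2*y0 + x2*y1 + 10*x2*y2 - 4*x3*y0 - 10*x3*y1,
      4*w2 - x0*y0 + 11*x0*y1 - 2*x0*y2 - 3*x1*y0 - 2*x1*y1 - 5*x1*y2 - 11*x2*y0 - 10*x2*y1 - 10*x3*y0,
      10*w2 + 8*x0*y0 - 6*x0*y1 - 5*x0*y2 + x1*y0 - 5*x1*y1 + 10*x2*y0)⟩

/-- The commutator `[X, 2 g]`. -/
def c2 (a x0 x1 x2 x3 y0 y1 y2 y3 w0 w1 w2 : R) : Gp :=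
  ⟨0, (0, 0, -2*a*x0, -3*a*x0 - 6*a*x1 - 3*a^2*x0),
    (0, 0, -2*a*y0, -3*a*y0 - 6*a*y1 - 3*a^2*y0),
    (4*a*w2 - x0*y1 + 7*x0*y2 + 4*x0*y3 + x1*y0 - 3*x1*y2 + 10*x1*y3 - 7*x2*y0 + 3*x2*y1 - 4*x3*y0 - 10*x3*y1 + 7*a*x0*y1 - 8*a*x0*y2 + 10*a*x0*y3 - 7*a*x1*y0 + 8*a*x1*y1 + 10*a*x2*y1 + 5*a*x3*y0 + 5*a^2*w2 - 9*a^2*x0*y0 - 6*a^2*x0*y1 - 4*a^2*x1*y0 + 10*a^2*x1*y1 - 10*a^2*x2*y0 - 5*a^3*x0*y0 + 10*a^3*x0*y1 - 10*a^3*x1*y0,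
      10*a*w2 - 11*x0*y1 + 9*x0*y2 + 10*x0*y3 + 11*x1*y0 + 5*x1*y2 - 9*x2*y0 - 5*x2*y1 - 10*x3*y0 - 8*a*x0*y1 + 5*a*x0*y2 + 8*a*x1*y0 - 5*a*x1*y1 - 10*a^2*x0*y0 + 10*a^2*x0*y1 - 10*a^2*x1*y0,
      -7*x0*y1 + 10*x0*y2 + 7*x1*y0 - 10*x2*y0 + 5*a*x0*y1 - 5*a*x1*y0)⟩

/-- The commutator `[X, 3 g]`. -/
def c3 (a x0 x1 x2 x3 y0 y1 y2 y3 w0 w1 w2 : R) : Gp :=
  ⟨0, (0, 0, 0, -6*a^2*x0),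
    (0, 0, 0, -6*a^2*y0),
    (11*a*x0*y1 + 3*a*x0*y2 - 5*a*x0*y3 - 11*a*x1*y0 + 10*a*x1*y2 - 3*a*x2*y0 - 10*a*x2*y1 + 5*a*x3*y0 + 10*a^2*w2 - 8*a^2*x0*y1 + 5*a^2*x0*y2 + 8*a^2*x1*y0 - 5*a^2*x1*y1 - 5*a^3*x0*y1 + 5*a^3*x1*y0,
      6*a*x0*y1 - 5*a*x0*y2 - 6*a*x1*y0 + 5*a*x2*y0 + 5*a^2*x0*y1 - 5*a^2*x1*y0,
      -10*a*x0*y1 + 10*a*x1*y0)⟩

theorem step1 (a x0 x1 x2 x3 y0 y1 y2 y3 w0 w1 w2 : R) :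
    X * (⟨a, (x0, x1, x2, x3), (y0, y1, y2, y3), (w0, w1, w2)⟩ : Gp) = ⟨a, (x0, x1, x2, x3), (y0, y1, y2, y3), (w0, w1, w2)⟩ * X * c1 a x0 x1 x2 x3 y0 y1 y2 y3 w0 w1 w2 := by
  rw [X_mul, mul_X]
  refine Gp.ext ?_ ?_ ?_ ?_
  · simp only [mul_a, c1]; ring
  · simp only [mul_x, c1, E, Prod.mk_add_mk, Prod.mk.injEq]
    refine ⟨?_, ?_, ?_, ?_⟩
    · ring
    · ring
    · ring
    · ring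
  · simp only [mul_y, c1, E, Prod.mk_add_mk, Prod.mk.injEq]
    refine ⟨?_, ?_, ?_, ?_⟩
    · ring
    · ring
    · ring
    · ring
  · simp only [mul_w, c1, E, F, B, Prod.mk_add_mk, Prod.mk.injEq]
    refine ⟨?_, ?_, ?_⟩
    · linear_combination (-w2 - x0*y1 - x1*y0 - 3*x1*y1 - x1*y2 - x2*y0 - 2*x2*y1 - x2*y2) * h25
    · linear_combination (-w2 - 2*x0*y0 - 4*x0*y1 - x0*y2 - 4*x1*y0 - 6*x1*y1 - x1*y2 - 2*x2*y0 - 2*x2*y1) * h25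
    · linear_combination (-w2 - x0*y2 + x1*y0 + x1*y1) * h25

theorem step2 (a x0 x1 x2 x3 y0 y1 y2 y3 w0 w1 w2 : R) :
    c1 a x0 x1 x2 x3 y0 y1 y2 y3 w0 w1 w2 * (⟨a, (x0, x1, x2, x3), (y0, y1, y2, y3), (w0, w1, w2)⟩ : Gp) = ⟨a, (x0, x1, x2, x3), (y0, y1, y2, y3), (w0, w1, w2)⟩ * c1 a x0 x1 x2 x3 y0 y1 y2 y3 w0 w1 w2 * c2 a x0 x1 x2 x3 y0 y1 y2 y3 w0 w1 w2 := by
  refine Gp.ext ?_ ?_ ?_ ?_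
  · simp only [mul_a, c1, c2]; ring
  · simp only [mul_x, c1, c2, E, Prod.mk_add_mk, Prod.mk.injEq]
    refine ⟨?_, ?_, ?_, ?_⟩
    · ring
    · ring
    · ring
    · ring
  · simp only [mul_y, c1, c2, E, Prod.mk_add_mk, Prod.mk.injEq]
    refine ⟨?_, ?_, ?_, ?_⟩
    · ring
    · ring
    · ring
    · ring
  · simp only [mul_w, mul_x, c1, c2, E, F, B, Prod.mk_add_mk, Prod.mk.injEq]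
    refine ⟨?_, ?_, ?_⟩
    · linear_combination (x1*y2 - x2*y1 + a*x0*y0 + a*x0*y1 + a*x0*y2 + 3*a*x1*y0 + 2*a*x1*y1 + a*x1*y2 - 2*a*x2*y1 - a*x3*y0 + 5*a^2*w2 + 5*a^2*x0*y0 - 3*a^2*x0*y1 - 2*a^2*x0*y2 + 2*a^2*x1*y0 - 3*a^2*x1*y1 + 5*a^2*x2*y0 + 6*a^3*w2 + 5*a^3*x0*y0 - 4*a^3*x0*y1 - 3*a^3*x0*y2 + a^3*x1*y0 - 3*a^3*x1*y1 + 6*a^3*x2*y0) * h25
    · linear_combination (x0*y1 + x0*y2 - x1*y0 + x1*y2 - x2*y0 - x2*y1 + 4*a*x0*y0 + 4*a*x0*y1 + 2*a*x0*y2 + 3*a*x1*y0 - 2*a*x2*y0 + 8*a^2*w2 + 8*a^2*x0*y0 - 4*a^2*x0*y1 - 4*a^2*x0*y2 - 4*a^2*x1*y1 + 8*a^2*x2*y0) * h25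
    · linear_combination (6*a*w2 - x0*y1 - 2*x0*y2 + x1*y0 + 2*x2*y0 + 4*a*x0*y0 - 7*a*x0*y1 - 3*a*x0*y2 + 4*a*x1*y0 - 3*a*x1*y1 + 6*a*x2*y0) * h25

theorem step3 (a x0 x1 x2 x3 y0 y1 y2 y3 w0 w1 w2 : R) :
    c2 a x0 x1 x2 x3 y0 y1 y2 y3 w0 w1 w2 * (⟨a, (x0, x1, x2, x3), (y0, y1, y2, y3), (w0, w1, w2)⟩ : Gp) = ⟨a, (x0, x1, x2, x3), (y0, y1, y2, y3), (w0, w1, w2)⟩ * c2 a x0 x1 x2 x3 y0 y1 y2 y3 w0 w1 w2 * c3 a x0 x1 x2 x3 y0 y1 y2 y3 w0 w1 w2 := by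
  refine Gp.ext ?_ ?_ ?_ ?_
  · simp only [mul_a, c2, c3]; ring
  · simp only [mul_x, c2, c3, E, Prod.mk_add_mk, Prod.mk.injEq]
    refine ⟨?_, ?_, ?_, ?_⟩
    · ring
    · ring
    · ring
    · ring
  · simp only [mul_y, c2, c3, E, Prod.mk_add_mk, Prod.mk.injEq]
    refine ⟨?_, ?_, ?_, ?_⟩
    · ring
    · ring
    · ring
    · ring
  · simp only [mul_w, mul_x, c2, c3, E, F, B, Prod.mk_add_mk, Prod.mk.injEq]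
    refine ⟨?_, ?_, ?_⟩
    · linear_combination (-a*x0*y1 + a*x0*y2 + a*x0*y3 + a*x1*y0 + a*x1*y2 - a*x2*y0 - a*x2*y1 - a*x3*y0 - 4*a^2*x0*y1 + 7*a^2*x0*y2 + 4*a^2*x1*y0 - 7*a^2*x2*y0 + 2*a^3*x0*y0 - a^3*x0*y1 + 6*a^3*x0*y2 + a^3*x1*y0 - 6*a^3*x2*y0 + 3*a^4*x0*y1 - 3*a^4*x1*y0) * h25
    · linear_combination (a*x0*y1 + 3*a*x0*y2 - a*x1*y0 - 3*a*x2*y0 - 2*a^2*x0*y1 + 8*a^2*x0*y2 + 2*a^2*x1*y0 - 8*a^2*x2*y0 + 4*a^3*x0*y1 - 4*a^3*x1*y0) * h25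
    · linear_combination (-7*a*x0*y1 + 6*a*x0*y2 + 7*a*x1*y0 - 6*a*x2*y0 + 3*a^2*x0*y1 - 3*a^2*x1*y0) * h25

theorem step4 (a x0 x1 x2 x3 y0 y1 y2 y3 w0 w1 w2 : R) :
    c3 a x0 x1 x2 x3 y0 y1 y2 y3 w0 w1 w2 * (⟨a, (x0, x1, x2, x3), (y0, y1, y2, y3), (w0, w1, w2)⟩ : Gp) = ⟨a, (x0, x1, x2, x3), (y0, y1, y2, y3), (w0, w1, w2)⟩ * c3 a x0 x1 x2 x3 y0 y1 y2 y3 w0 w1 w2 := by
  refine Gp.ext ?_ ?_ ?_ ?_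
  · simp only [mul_a, c3]; ring
  · simp only [mul_x, c3, E, Prod.mk_add_mk, Prod.mk.injEq]
    refine ⟨?_, ?_, ?_, ?_⟩
    · ring
    · ring
    · ring
    · ring
  · simp only [mul_y, c3, E, Prod.mk_add_mk, Prod.mk.injEq]
    refine ⟨?_, ?_, ?_, ?_⟩
    · ring
    · ring
    · ring
    · ring
  · simp only [mul_w, mul_x, c3, E, F, B, Prod.mk_add_mk, Prod.mk.injEq]
    refine ⟨?_, ?_, ?_⟩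
    · linear_combination (a^2*x0*y2 - a^2*x2*y0 - 5*a^3*x0*y1 + 5*a^3*x1*y0 - 6*a^4*x0*y1 + 6*a^4*x1*y0) * h25
    · linear_combination (2*a^2*x0*y1 - 2*a^2*x1*y0 - 8*a^3*x0*y1 + 8*a^3*x1*y0) * h25
    · linear_combination (-6*a^2*x0*y1 + 6*a^2*x1*y0) * h25

theorem engel_X (g : Gp) : engel X g 4 = 1 := by
  obtain ⟨a, ⟨x0, x1, x2, x3⟩, ⟨y0, y1, y2, y3⟩, ⟨w0, w1, w2⟩⟩ := g
  have e1 := comm_eq_of (step1 a x0 x1 x2 x3 y0 y1 y2 y3 w0 w1 w2)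
  have e2 := comm_eq_of (step2 a x0 x1 x2 x3 y0 y1 y2 y3 w0 w1 w2)
  have e3 := comm_eq_of (step3 a x0 x1 x2 x3 y0 y1 y2 y3 w0 w1 w2)
  have e4 : comm (c3 a x0 x1 x2 x3 y0 y1 y2 y3 w0 w1 w2) (⟨a, (x0, x1, x2, x3), (y0, y1, y2, y3), (w0, w1, w2)⟩ : Gp) = 1 :=
    comm_eq_of (by rw [step4, mul_one])
  simp only [engel, e1, e2, e3, e4]

theorem isRightEngel_X : IsRightEngel 4 X := engel_X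

end Gp

end Pool.Agent.Work.MP_d7201b_al
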