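import Pool.Agent.Work.MP_d7201b_al.Defs

/-!
# A group of order `25 ^ 12`

The group `Gp` is a semidirect product of a group of nilpotency class two (with underlying set
`V × V × W`, `V = (ZMod 25)⁴`, `W = (ZMod 25)³`) by the cyclic group `ZMod 25`.
-/

namespace Pool.Agent.Work.MP_d7201b_al

abbrev R := ZMod 25
abbrev V := R × R × R × R
abbrev W := R × R × R

theorem h25 : (25 : R) = 0 := by decide
theorem h5 (a : R) : 5 * a ^ 5 - 5 * a = 0 := by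
  revert a; decide

/-- The action of `a` on `V`. -/
def E (a : R) (x : V) : V :=
  (x.1, x.2.1 + a * x.1, x.2.2.1 + 2 * a * x.2.1 + a ^ 2 * x.1,
    x.2.2.2 + 3 * a * x.2.2.1 + 3 * a ^ 2 * x.2.1 + a ^ 3 * x.1)

/-- The action of `a` on `W`. -/
def F (a : R) (w : W) : W :=
  (w.1 + a * w.2.1 + 13 * a ^ 2 * w.2.2 + 15 * a ^ 3 * w.2.2,
    w.2.1 + a * w.2.2 + 20 * a ^ 2 * w.2.2, w.2.2 + 15 * a * w.2.2)

/-- The bilinear map `V × V → W`. -/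
def B (x y : V) : W :=
  (x.2.1 * y.2.2.2 - 2 * (x.2.2.1 * y.2.2.1) + x.2.2.2 * y.2.1
      - 5 * (x.2.2.1 * y.2.2.2 + x.2.2.2 * y.2.2.1),
    x.1 * y.2.2.2 - x.2.1 * y.2.2.1 - x.2.2.1 * y.2.1 + x.2.2.2 * y.1
      - 10 * (x.2.1 * y.2.2.2 + 3 * (x.2.2.1 * y.2.2.1) + x.2.2.2 * y.2.1) - 10 * (x.1 * y.1),
    2 * (x.1 * y.2.2.1 - 2 * (x.2.1 * y.2.1) + x.2.2.1 * y.1)
      - 10 * (x.1 * y.2.2.2 - x.2.1 * y.2.2.1 - x.2.2.1 * y.2.1 + x.2.2.2 * y.1))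

theorem E_add (a b : R) (x : V) : E (a + b) x = E b (E a x) := by
  obtain ⟨x0, x1, x2, x3⟩ := x
  simp only [E, Prod.mk.injEq]
  refine ⟨trivial, ?_, ?_, ?_⟩ <;> ring

theorem F_add (a b : R) (w : W) : F (a + b) w = F b (F a w) := by
  obtain ⟨w0, w1, w2⟩ := w
  simp only [F, Prod.mk.injEq]
  refine ⟨?_, ?_, ?_⟩
  · linear_combination (a*b*w2 + b*a^2*w2 - 6*b^2*a*w2 - 9*b^3*a*w2) * h25
  · linear_combination (a*b*w2 - 12*b^2*a*w2) * h25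
  · linear_combination (-9*a*b*w2) * h25

@[simp] theorem E_zero (x : V) : E 0 x = x := by
  obtain ⟨x0, x1, x2, x3⟩ := x; simp [E]
@[simp] theorem F_zero (x : W) : F 0 x = x := by
  obtain ⟨x0, x1, x2⟩ := x; simp [F]

theorem E_map_add (a : R) (x y : V) : E a (x + y) = E a x + E a y := by
  obtain ⟨x0, x1, x2, x3⟩ := x
  obtain ⟨y0, y1, y2, y3⟩ := y
  simp only [E, Prod.mk_add_mk, Prod.mk.injEq]
  refine ⟨trivial, ?_, ?_, ?_⟩ <;> ring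

theorem F_map_add (a : R) (x y : W) : F a (x + y) = F a x + F a y := by
  obtain ⟨x0, x1, x2⟩ := x
  obtain ⟨y0, y1, y2⟩ := y
  simp only [F, Prod.mk_add_mk, Prod.mk.injEq]
  refine ⟨?_, ?_, ?_⟩ <;> ring

theorem E_map_neg (a : R) (x : V) : E a (-x) = - E a x := by
  obtain ⟨x0, x1, x2, x3⟩ := x
  simp only [E, Prod.neg_mk, Prod.mk.injEq]
  refine ⟨trivial, ?_, ?_, ?_⟩ <;> ring

theorem F_map_neg (a : R) (x : W) : F a (-x) = - F a x := by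
  obtain ⟨x0, x1, x2⟩ := x
  simp only [F, Prod.neg_mk, Prod.mk.injEq]
  refine ⟨?_, ?_, ?_⟩ <;> ring

@[simp] theorem E_map_zero (a : R) : E a 0 = 0 := by simp [E]
@[simp] theorem F_map_zero (a : R) : F a 0 = 0 := by simp [F]

theorem B_add_left (x x' y : V) : B (x + x') y = B x y + B x' y := by
  obtain ⟨x0, x1, x2, x3⟩ := x
  obtain ⟨z0, z1, z2, z3⟩ := x'
  obtain ⟨y0, y1, y2, y3⟩ := y
  simp only [B, Prod.mk_add_mk, Prod.mk.injEq]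
  refine ⟨?_, ?_, ?_⟩ <;> ring

theorem B_add_right (x y y' : V) : B x (y + y') = B x y + B x y' := by
  obtain ⟨x0, x1, x2, x3⟩ := x
  obtain ⟨z0, z1, z2, z3⟩ := y'
  obtain ⟨y0, y1, y2, y3⟩ := y
  simp only [B, Prod.mk_add_mk, Prod.mk.injEq]
  refine ⟨?_, ?_, ?_⟩ <;> ring

@[simp] theorem B_zero_left (y : V) : B 0 y = 0 := by simp [B]
@[simp] theorem B_zero_right (y : V) : B y 0 = 0 := by simp [B]

theorem B_neg_left (x y : V) : B (-x) y = - B x y := by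
  have h := B_add_left (-x) x y
  rw [neg_add_cancel, B_zero_left] at h
  exact eq_neg_of_add_eq_zero_left h.symm

theorem B_equivariant (a : R) (x y : V) : B (E a x) (E a y) = F a (B x y) := by
  obtain ⟨x0, x1, x2, x3⟩ := x
  obtain ⟨y0, y1, y2, y3⟩ := y
  simp only [B, E, F, Prod.mk.injEq]
  refine ⟨?_, ?_, ?_⟩
  · linear_combination (-a^2*x0*y2 + 5*a^2*x0*y3 + 2*a^2*x1*y1 - 7*a^2*x1*y2 - a^2*x2*y0 - 7*a^2*x2*y1 + 5*a^2*x3*y0 - 2*a^3*x0*y2 + 6*a^3*x0*y3 - 6*a^3*x1*y2 - 2*a^3*x2*y0 - 6*a^3*x2*y1 + 6*a^3*x3*y0 - a^4*x0*y1 - a^4*x1*y0) * h25 + (-2*x0*y0) * h5 a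
  · linear_combination (-4*a*x1*y2 - 4*a*x2*y1 - 4*a^2*x0*y2 + 8*a^2*x0*y3 - 4*a^2*x1*y1 - 8*a^2*x1*y2 - 4*a^2*x2*y0 - 8*a^2*x2*y1 + 8*a^2*x3*y0 - 4*a^3*x0*y1 - 4*a^3*x1*y0 - 2*a^4*x0*y0) * h25
  · linear_combination (-2*a*x0*y2 + 6*a*x0*y3 + 4*a*x1*y1 - 6*a*x1*y2 - 2*a*x2*y0 - 6*a*x2*y1 + 6*a*x3*y0) * h25

/-- The underlying set of the group: `a` is the exponent of the element `X`. -/
@[ext] structure Gp where
  a : R
  x : V
  y : V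
  w : W

namespace Gp

instance : Mul Gp :=
  ⟨fun g h => ⟨g.a + h.a, E h.a g.x + h.x, E h.a g.y + h.y, F h.a g.w + h.w + B (E h.a g.x) h.y⟩⟩
instance : One Gp := ⟨⟨0, 0, 0, 0⟩⟩
instance : Inv Gp :=
  ⟨fun g => ⟨-g.a, - E (-g.a) g.x, - E (-g.a) g.y, F (-g.a) (- g.w + B g.x g.y)⟩⟩

@[simp] theorem mul_a (g h : Gp) : (g * h).a = g.a + h.a := rfl
@[simp] theorem mul_x (g h : Gp) : (g * h).x = E h.a g.x + h.x := rfl
@[simp] theorem mul_y (g h : Gp) : (g * h).y = E h.a g.y + h.y := rfl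
@[simp] theorem mul_w (g h : Gp) : (g * h).w = F h.a g.w + h.w + B (E h.a g.x) h.y := rfl
@[simp] theorem one_a : (1 : Gp).a = 0 := rfl
@[simp] theorem one_x : (1 : Gp).x = 0 := rfl
@[simp] theorem one_y : (1 : Gp).y = 0 := rfl
@[simp] theorem one_w : (1 : Gp).w = 0 := rfl
@[simp] theorem inv_a (g : Gp) : (g⁻¹).a = -g.a := rfl
@[simp] theorem inv_x (g : Gp) : (g⁻¹).x = - E (-g.a) g.x := rfl
@[simp] theorem inv_y (g : Gp) : (g⁻¹).y = - E (-g.a) g.y := rfl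
@[simp] theorem inv_w (g : Gp) : (g⁻¹).w = F (-g.a) (- g.w + B g.x g.y) := rfl

theorem mul_assoc' (g h k : Gp) : g * h * k = g * (h * k) := by
  refine Gp.ext ?_ ?_ ?_ ?_
  · simp [add_assoc]
  · simp only [mul_x, mul_a, E_map_add, E_add]; rw [add_assoc]
  · simp only [mul_y, mul_a, E_map_add, E_add]; rw [add_assoc]
  · simp only [mul_w, mul_x, mul_y, mul_a, E_map_add, E_add, F_map_add, F_add, B_add_left,
      B_add_right, B_equivariant]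
    abel

theorem one_mul' (g : Gp) : 1 * g = g := by
  refine Gp.ext ?_ ?_ ?_ ?_ <;> simp

theorem inv_mul' (g : Gp) : g⁻¹ * g = 1 := by
  have hE : ∀ v : V, E g.a (E (-g.a) v) = v := fun v => by rw [← E_add, neg_add_cancel, E_zero]
  have hF : ∀ v : W, F g.a (F (-g.a) v) = v := fun v => by rw [← F_add, neg_add_cancel, F_zero]
  refine Gp.ext ?_ ?_ ?_ ?_
  · simp
  · simp [E_map_neg, hE]
  · simp [E_map_neg, hE]
  · simp only [mul_w, inv_w, inv_x, E_map_neg, hE, hF, B_neg_left, one_w]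
    abel

instance : Group Gp :=
  Group.ofLeftAxioms mul_assoc' one_mul' inv_mul'

end Gp

end Pool.Agent.Work.MP_d7201b_al
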